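import Pool.Agent.J6H45.ST.Gen2

/-!
# The coefficients `a_1(p)` and `a_2(p)` of the normalized Euler factors of the Jacobians of almost all curves of genus `2` whose
# coefficients are members of automatic sets, or random integers whose blocks of digits can be exchanged

The five coefficients run through arbitrary automatic sets of more than polylogarithmic size (such sets may have as few as `N ^ c`
elements below `N`, with arbitrarily small `c > 0`), or they are independent random integers whose blocks of digits can be exchanged.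
For almost all of these curves, and for all `x` up to a power of the size of the coefficients, the pairs `(a_1(p), a_2(p))`, `p ≤ x`,
have the first joint moments of `USp(4)`, and they are distributed as for all the curves over the fields `F_p`, with square-root
error, along any sets of primes.

Definitions used, in `Pool/Agent/J6H45/ST/Gen2.lean`: `points₁ p m`, `points₂ p m`: the numbers of the solutions of
`Y ^ 2 = X ^ 5 + m 4 X ^ 4 + ... + m 0` in the fields with `p` and `p ^ 2` elements; `Smooth p m`: the curve is smooth modulo `p`;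
`a₁ p m`, `a₂ p m`: the coefficients of the normalized Euler factor; `moment i k`: the mean of `a_1 ^ i a_2 ^ k` over `USp(4)`;
`model p ψ`: the mean of `ψ (a_1, a_2)` over the curves over `F_p`; `primesIn T x`: the primes `p ≤ x` in `T`; `Equidistributed`: the
property of a curve described above. From Mathlib: `DFA`: deterministic automata; `Nat.digits`: the digits, the least significant first.

Method: the exponential sums over the members of these families have the decay which is needed for the passage to sums over primes of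
functions of residues (starting files `Pool.Agent.N625.PT`, `Pool.Agent.H491R4.AF`, `Pool.Agent.R459.Eq`), one variable after the
other (`Pool.Agent.N794.CG.Multi`); the local means are the joint moments of `USp(4)` up to `O(1 / p)` (`Pool.Agent.V11210.G2`).
-/

set_option autoImplicit false

namespace Pool.Agent.Results.MP_6dc561_nt.DigitalFamilies

open Finset Filter
open Pool.Agent.J6H45.ST (Equidistributed data2 equi_of)

open Classical in
/-- The integers `0 ≤ v < N` whose digits in base `b` (the least significant first) are accepted by the finite automaton `M`. -/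
noncomputable def accepted {σ : Type} (b : ℕ) (M : DFA ℕ σ) (N : ℕ) : Finset ℕ :=
  (range N).filter (fun v => Nat.digits b v ∈ M.accepts)

lemma accepted_eq {σ : Type} (b : ℕ) (M : DFA ℕ σ) (N : ℕ) : accepted b M N = Pool.Agent.N794.CG.mem b M N := by
  unfold accepted Pool.Agent.N794.CG.mem
  congr!

/-- The probability, for the distribution `μ` on the words of `k` digits (the integers `v < b ^ k`), that the word begins with
the `i` digits of `u < b ^ i`. -/
noncomputable def begins (b k : ℕ) (μ : ℕ → ℝ) (i u : ℕ) : ℝ := ∑ w ∈ range (b ^ (k - i)), μ (u * b ^ (k - i) + w)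

/-- `p` is a probability on the words of `k` digits in base `b`, read as integers `v < b ^ k`. There is another probability
`μ` with `p ≤ k ^ T μ` such that after every beginning `u` two different blocks `a`, `a'` of `L` digits can be exchanged:
`p (u a w) = r p (u a' w)` for all endings `w`, with a factor `r` between `η` and `1 / η` which does not depend on `w`; and
given the beginning `u`, each of the two blocks comes next with a probability of at least `η` in the distribution `μ`.
(For `T = 0` one has `μ = p`. For the uniform distribution on a set of words `r` is `1`.) -/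
structure Exchangeable (b L : ℕ) (η : ℝ) (T k : ℕ) (p : ℕ → ℝ) : Prop where
  nonneg : ∀ v, 0 ≤ p v
  sum : ∑ v ∈ range (b ^ k), p v = 1
  dominated : ∃ μ : ℕ → ℝ, (∀ v, 0 ≤ μ v) ∧ ∑ v ∈ range (b ^ k), μ v = 1 ∧ (∀ v < b ^ k, p v ≤ (k : ℝ) ^ T * μ v) ∧
    ∀ i u : ℕ, i + L ≤ k → u < b ^ i → ∃ (a a' : ℕ) (r : ℝ), a < a' ∧ a' < b ^ L ∧ η ≤ r ∧ η * r ≤ 1 ∧
      (∀ w < b ^ (k - (i + L)), p ((b ^ L * u + a) * b ^ (k - (i + L)) + w) = r * p ((b ^ L * u + a') * b ^ (k - (i + L)) + w)) ∧
      η * begins b k μ i u ≤ begins b k μ (i + L) (b ^ L * u + a) ∧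
      η * begins b k μ i u ≤ begins b k μ (i + L) (b ^ L * u + a')

lemma begins_sum (b k : ℕ) (μ : ℕ → ℝ) (i u : ℕ) (hi : i < k) :
    ∑ a ∈ range b, begins b k μ (i + 1) (b * u + a) = begins b k μ i u := by
  unfold begins
  obtain ⟨n, hn⟩ : ∃ n, k - i = n + 1 := ⟨k - i - 1, by omega⟩
  have h1 : k - (i + 1) = n := by omega
  rw [h1, hn, pow_succ, mul_comm (b ^ n) b, Pool.Agent.N625.PT.sum_blocks b (b ^ n)]
  apply sum_congr rfl
  intro a _
  apply sum_congr rfl
  intro w _
  congr 1
  ring

lemma flex_of {b L T k : ℕ} {η : ℝ} {p : ℕ → ℝ} (hp : Exchangeable b L η T k p) : Pool.Agent.N625.PT.Flex b L η T k p := by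
  obtain ⟨h0, h1, μ, m0, m1, m2, m3⟩ := hp
  have hT : (0 : ℝ) ≤ (k : ℝ) ^ T := by positivity
  have hb0 : ∀ i u, 0 ≤ begins b k μ i u := fun i u => sum_nonneg fun w _ => m0 _
  refine ⟨h0, h1, fun i u => (k : ℝ) ^ T * begins b k μ i u, fun i u => mul_nonneg hT (hb0 i u), ?_, ?_, ?_, ?_⟩
  · intro v hv
    refine (m2 v hv).trans (le_of_eq ?_)
    unfold begins
    simp
  · intro i hi u _
    simp only
    rw [← mul_sum, begins_sum b k μ i u hi]
  · simp only
    have : begins b k μ 0 0 = 1 := by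
      unfold begins
      simpa using m1
    rw [this, mul_one]
  · intro i u hi hu
    obtain ⟨a, a', r, q1, q2, q3, q4, q5, q6, q7⟩ := m3 i u hi hu
    refine ⟨a, a', r, q1, q2, q3, q4, q5, ?_, ?_⟩
    · simp only
      calc η * ((k : ℝ) ^ T * begins b k μ i u) = (k : ℝ) ^ T * (η * begins b k μ i u) := by ring
        _ ≤ _ := mul_le_mul_of_nonneg_left q6 hT
    · simp only
      calc η * ((k : ℝ) ^ T * begins b k μ i u) = (k : ℝ) ^ T * (η * begins b k μ i u) := by ring
        _ ≤ _ := mul_le_mul_of_nonneg_left q7 hT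

open Classical in
/-- Let `0 < δ ≤ 1`, and let `𝒮` be a finite set of bounded functions of two real variables. The sets `T j` of primes below are
disjoint for different `j` and otherwise arbitrary.

**(1) Automatic sets.** Let `S_l`, `l = 0, ..., 4`, be the sets of the integers `v ≥ 0` whose digits in base `b l ≥ 2` are accepted by
finite automata `M l`, and suppose that the `S_l` have more than polylogarithmic size: for every `k` there are infinitely many `N`
such that more than `(log N) ^ k` elements of `S_l` are smaller than `N`. There are `W` and `e` such that for all nonzero `κ l`, all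
sufficiently large `X`, all `N l`, `c l` and `T`: all the vectors `v` with `v l ∈ S_l`, `v l < N l`, up to a proportion of at most
`(∑ (1 + log N l) ^ e) X ^ (- δ / 8)`, have the property that the Jacobian of the curve `Y ^ 2 = X ^ 5 + m 4 X ^ 4 + ... + m 0`,
`m l = c l + κ l v l`, of genus `2` satisfies `Equidistributed δ T 𝒮 x m` for ALL `x ≥ X` with `x ^ W ≤ N l` for all `l`: the sums
over the primes `p ≤ x` in `T j` of `a_1(p) ^ i a_2(p) ^ k` (`i + 2 k ≤ 5`, or `i ≤ 7` and `k = 0`) and of `ψ (a_1(p), a_2(p))`, `ψ ∈ 𝒮`,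
are as expected, up to an error of at most the square root of the number of the primes `p ≤ 2 x` in `T j` times `x ^ δ`, for all
`j ≤ x ^ (δ / 4)`.

**(2) Exchangeable digits.** Let `b ≥ 2`, `L ≥ 1`, `0 < η ≤ 1` and `T₀` be given. There is `W` such that for all nonzero `κ l`, all
sufficiently large `X`, all numbers `k l` of digits, all probabilities `P l` on the words of `k l` digits in which blocks of `L` digits
can be exchanged (`Exchangeable b L η T₀ (k l) (P l)`), all `c l` and `T`: if the `v l` are independent random integers with the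
distributions `P l`, then the probability that `Equidistributed δ T 𝒮 x m`, `m l = c l + κ l v l`, fails for some `x ≥ X` with
`x ^ W ≤ b ^ k l` for all `l` is at most `(∑ (k l) ^ T₀) X ^ (- δ / 8)`. -/
theorem result (δ : ℝ) (hδ : 0 < δ) (hδ1 : δ ≤ 1) (𝒮 : Finset (ℝ → ℝ → ℝ)) (h𝒮 : ∀ ψ ∈ 𝒮, ∃ C : ℝ, ∀ s t : ℝ, |ψ s t| ≤ C) :
    (∀ (σ : Fin 5 → Type) [∀ l, Fintype (σ l)] (b : Fin 5 → ℕ), (∀ l, 2 ≤ b l) → ∀ M : ∀ l, DFA ℕ (σ l),
      (∀ l, ∀ k : ℕ, ∃ᶠ N : ℕ in atTop, Real.log N ^ k < ((accepted (b l) (M l) N).card : ℝ)) →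
      ∃ W e : ℕ, 1 ≤ W ∧ ∀ κ : Fin 5 → ℤ, (∀ l, κ l ≠ 0) → ∃ X₀ : ℕ, ∀ X : ℕ, X₀ ≤ X →
      ∀ (N : Fin 5 → ℕ) (c : Fin 5 → ℤ) (T : ℕ → Set ℕ), (∀ p j j', p ∈ T j → p ∈ T j' → j = j') →
      (((Fintype.piFinset (fun l => accepted (b l) (M l) (N l))).filter (fun v => ¬ ∀ x : ℕ, X ≤ x → (∀ l, x ^ W ≤ N l) →
        Equidistributed δ T 𝒮 x (fun l => c l + κ l * (v l : ℕ)))).card : ℝ) ≤
      ((∑ l, (1 + Real.log (N l)) ^ e) * (X : ℝ) ^ (-(δ / 8))) * ∏ l, ((accepted (b l) (M l) (N l)).card : ℝ)) ∧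
    (∀ b L : ℕ, 2 ≤ b → 1 ≤ L → ∀ η : ℝ, 0 < η → η ≤ 1 → ∀ T₀ : ℕ,
      ∃ W : ℕ, 1 ≤ W ∧ ∀ κ : Fin 5 → ℤ, (∀ l, κ l ≠ 0) → ∃ X₀ : ℕ, ∀ X : ℕ, X₀ ≤ X →
      ∀ (k : Fin 5 → ℕ) (P : Fin 5 → ℕ → ℝ), (∀ l, Exchangeable b L η T₀ (k l) (P l)) →
      ∀ (c : Fin 5 → ℤ) (T : ℕ → Set ℕ), (∀ p j j', p ∈ T j → p ∈ T j' → j = j') →
      ∑ v ∈ Fintype.piFinset (fun l => range (b ^ k l)), (if ∀ x : ℕ, X ≤ x → (∀ l, x ^ W ≤ b ^ k l) →
        Equidistributed δ T 𝒮 x (fun l => c l + κ l * (v l : ℕ)) then 0 else ∏ l, P l (v l)) ≤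
      (∑ l, (k l : ℝ) ^ T₀) * (X : ℝ) ^ (-(δ / 8))) := by
  have hD := data2 𝒮 h𝒮
  constructor
  · intro σ _ b hb M hS
    simp only [accepted_eq] at hS ⊢
    obtain ⟨W, e, hW, H⟩ := Pool.Agent.N794.CG.multi_aut hD δ hδ hδ1 σ b hb M hS
    refine ⟨W, e, hW, fun κ hκ => ?_⟩
    obtain ⟨X₀, J⟩ := H κ hκ
    refine ⟨X₀, fun X hX N c T hT => le_trans ?_ (J X hX N c T hT)⟩
    have hsub : (Fintype.piFinset (fun l => Pool.Agent.N794.CG.mem (b l) (M l) (N l))).filter (fun v => ¬ ∀ x : ℕ, X ≤ x →
        (∀ l, x ^ W ≤ N l) → Equidistributed δ T 𝒮 x (fun l => c l + κ l * (v l : ℕ))) ⊆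
        (Fintype.piFinset (fun l => Pool.Agent.N794.CG.mem (b l) (M l) (N l))).filter (fun v => ¬ ∀ x : ℕ, X ≤ x →
        (∀ l, x ^ W ≤ N l) → Pool.Agent.N794.CG.GoodQ δ T (Pool.Agent.J6H45.ST.prs.disjSum 𝒮) Pool.Agent.J6H45.ST.FF
          Pool.Agent.J6H45.ST.MM x (fun l => c l + κ l * (v l : ℕ))) := by
      intro v hv
      rw [mem_filter] at hv ⊢
      exact ⟨hv.1, fun h => hv.2 fun x hx hxN => equi_of (h x hx hxN)⟩
    exact_mod_cast card_le_card hsub
  · intro b L hb hL η hη0 hη1 T₀
    obtain ⟨W, hW, H⟩ := Pool.Agent.N794.CG.multi_flex hD δ hδ hδ1 b L hb hL η hη0 hη1 T₀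
    refine ⟨W, hW, fun κ hκ => ?_⟩
    obtain ⟨X₀, J⟩ := H κ hκ
    refine ⟨X₀, fun X hX k P hP c T hT => le_trans ?_ (J X hX k P (fun l => flex_of (hP l)) c T hT)⟩
    apply sum_le_sum
    intro v _
    have h0 : 0 ≤ ∏ l, P l (v l) := prod_nonneg fun l _ => (hP l).nonneg _
    by_cases h1 : ∀ x : ℕ, X ≤ x → (∀ l, x ^ W ≤ b ^ k l) → Pool.Agent.N794.CG.GoodQ δ T (Pool.Agent.J6H45.ST.prs.disjSum 𝒮)
        Pool.Agent.J6H45.ST.FF Pool.Agent.J6H45.ST.MM x (fun l => c l + κ l * (v l : ℕ))
    · rw [if_pos h1, if_pos (fun x hx hxN => equi_of (h1 x hx hxN))]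
    · rw [if_neg h1]
      split_ifs
      · exact h0
      · exact le_rfl

end Pool.Agent.Results.MP_6dc561_nt.DigitalFamilies
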