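import Pool.Agent.J6H45.ST.Gen2

/-!
# The coefficients `a_1(p)` and `a_2(p)` of the normalized Euler factors of the Jacobians of almost all curves of genus `2` whose
# coefficients are members of families of residues, or values of functions of non-integral index

The five coefficients run through families of residues `y_i` modulo arbitrary integers `q` with small Fourier coefficients (for instance
the elements of subgroups, the values of polynomials modulo primes, quotients by small primes; such families may be as small as a power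
of `log q`), or through the values `⌊f(v)⌋` of smooth functions of non-integral index, for instance `⌊v ^ c⌋`, `c > 0` not an integer.
For almost all of these curves, and for all `x` in an explicit range, the pairs `(a_1(p), a_2(p))`, `p ≤ x`, have the first joint
moments of `USp(4)`, and they are distributed as for all the curves over the fields `F_p`, with square-root error, along any sets of
primes.

Definitions used, in `Pool/Agent/J6H45/ST/Gen2.lean`: `points₁ p m`, `points₂ p m`: the numbers of the solutions of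
`Y ^ 2 = X ^ 5 + m 4 X ^ 4 + ... + m 0` in the fields with `p` and `p ^ 2` elements; `Smooth p m`: the curve is smooth modulo `p`;
`a₁ p m`, `a₂ p m`: the coefficients of the normalized Euler factor; `moment i k`: the mean of `a_1 ^ i a_2 ^ k` over `USp(4)`;
`model p ψ`: the mean of `ψ (a_1, a_2)` over the curves over `F_p`; `primesIn T x`: the primes `p ≤ x` in `T`; `Equidistributed`: the
property of a curve described above. From Mathlib: `ZMod.stdAddChar`: the additive character `j ↦ exp (2 π i j / q)` of the integers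
modulo `q`; `ZMod.val`: the least residue; `ContDiffAt ℝ ⊤`: infinitely differentiable at a point; `iteratedDeriv m f`: the derivative
of order `m`; `⌊y⌋₊`: the integer part of `y`, and `0` for `y < 0`.

Method: the exponential sums over the members of these families have the decay which is needed for the passage to sums over primes of
functions of residues (starting files `Pool.Agent.N384.MQ`, `Pool.Agent.N193.PS`, `Pool.Agent.R459.Eq`), one variable after the
other (`Pool.Agent.N794.CG.Multi`); the local means are the joint moments of `USp(4)` up to `O(1 / p)` (`Pool.Agent.V11210.G2`).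
-/

set_option autoImplicit false

namespace Pool.Agent.Results.MP_6dc561_nt.ResiduesAndPowers

open Finset Filter
open Pool.Agent.J6H45.ST (Equidistributed data2 equi_of)

/-- The Fourier coefficients of the residues `y i`, `i ∈ s`, modulo `q` at the nonzero frequencies are at most
`η` times the number of the residues: `|∑ i ∈ s, e(h y_i / q)| ≤ η |s|` for all `h ≠ 0` modulo `q`. -/
def Flat {ι : Type} (q : ℕ) [NeZero q] (η : ℝ) (s : Finset ι) (y : ι → ZMod q) : Prop :=
  ∀ h : ZMod q, h ≠ 0 → ‖∑ i ∈ s, (ZMod.stdAddChar (h * y i) : ℂ)‖ ≤ η * s.card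

/-- `f` is smoothly varying of index `c`: it is infinitely differentiable and positive for large arguments, and
`t ^ m f⁽ᵐ⁾(t) / f(t) → c (c - 1) ... (c - m + 1)` for every `m`. -/
def SmoothlyVarying (c : ℝ) (f : ℝ → ℝ) : Prop :=
  (∃ t₀ : ℝ, ∀ t > t₀, ContDiffAt ℝ ((⊤ : ℕ∞) : WithTop ℕ∞) f t ∧ 0 < f t) ∧
  ∀ m : ℕ, Tendsto (fun t => t ^ m * iteratedDeriv m f t / f t) atTop (nhds (∏ i ∈ range m, (c - i)))

open Classical in
/-- Let `0 < δ ≤ 1`, and let `𝒮` be a finite set of bounded functions of two real variables. The sets `T j` of primes below are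
disjoint for different `j` and otherwise arbitrary.

**(1) Residues.** There is `W` such that for all nonzero `κ l`, all sufficiently large `X`, all finite families `y l i`, `i ∈ s l`
(`l = 0, ..., 4`), of residues modulo any `q l` whose Fourier coefficients at the nonzero frequencies are at most
`|s l| / (Z (42 + 3 log q l))`, where `0 < Z ≤ q l`, and all `c l` and `T`: all the vectors `i` of indices `i l ∈ s l`, up to a
proportion of at most `5 X ^ (- δ / 8)`, have the property that the Jacobian of the curve `Y ^ 2 = X ^ 5 + m 4 X ^ 4 + ... + m 0` of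
genus `2`, `m l = c l + κ l v l` with the least residues `v l` of `y l (i l)`, satisfies `Equidistributed δ T 𝒮 x m` for ALL `x ≥ X`
with `x ^ W ≤ Z`: the sums over the primes `p ≤ x` in `T j` of `a_1(p) ^ i a_2(p) ^ k` (`i + 2 k ≤ 5`, or `i ≤ 7` and `k = 0`) and of
`ψ (a_1(p), a_2(p))`, `ψ ∈ 𝒮`, are as expected, up to an error of at most the square root of the number of the primes `p ≤ 2 x` in
`T j` times `x ^ δ`, for all `j ≤ x ^ (δ / 4)`.

**(2) Functions of non-integral index.** Let `f l` be smoothly varying functions of indices `e l > 0` which are not integers, for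
instance `f l (t) = t ^ e l`. There is `W` such that for all nonzero `κ l`, all sufficiently large `X`, all `N l`, `c l` and `T`: all
the vectors `v` with `1 ≤ v l ≤ N l`, up to a proportion of at most `5 X ^ (- δ / 8)`, have the property that
`Equidistributed δ T 𝒮 x m`, `m l = c l + κ l ⌊f l (v l)⌋`, is true for ALL `x ≥ X` with `x ^ W ≤ f l (N l)` for all `l`. -/
theorem result (δ : ℝ) (hδ : 0 < δ) (hδ1 : δ ≤ 1) (𝒮 : Finset (ℝ → ℝ → ℝ)) (h𝒮 : ∀ ψ ∈ 𝒮, ∃ C : ℝ, ∀ s t : ℝ, |ψ s t| ≤ C) :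
    (∃ W : ℕ, 1 ≤ W ∧ ∀ κ : Fin 5 → ℤ, (∀ l, κ l ≠ 0) → ∃ X₀ : ℕ, ∀ X : ℕ, X₀ ≤ X →
      ∀ (ι : Fin 5 → Type) (q : Fin 5 → ℕ) [∀ l, NeZero (q l)] (s : ∀ l, Finset (ι l)) (y : ∀ l, ι l → ZMod (q l)) (Z : ℝ),
      0 < Z → (∀ l, Z ≤ q l) → (∀ l, Flat (q l) (1 / (Z * (42 + 3 * Real.log (q l)))) (s l) (y l)) →
      ∀ (c : Fin 5 → ℤ) (T : ℕ → Set ℕ), (∀ p j j', p ∈ T j → p ∈ T j' → j = j') →
      (((Fintype.piFinset s).filter (fun i => ¬ ∀ x : ℕ, X ≤ x → (x : ℝ) ^ W ≤ Z →
        Equidistributed δ T 𝒮 x (fun l => c l + κ l * ((y l (i l)).val : ℕ)))).card : ℝ) ≤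
      (5 * (X : ℝ) ^ (-(δ / 8))) * ∏ l, ((s l).card : ℝ)) ∧
    (∀ (e : Fin 5 → ℝ) (f : Fin 5 → ℝ → ℝ), (∀ l, 0 < e l) → (∀ l, ∀ m : ℕ, e l ≠ m) → (∀ l, SmoothlyVarying (e l) (f l)) →
      ∃ W : ℕ, 1 ≤ W ∧ ∀ κ : Fin 5 → ℤ, (∀ l, κ l ≠ 0) → ∃ X₀ : ℕ, ∀ X : ℕ, X₀ ≤ X →
      ∀ (N : Fin 5 → ℕ) (c : Fin 5 → ℤ) (T : ℕ → Set ℕ), (∀ p j j', p ∈ T j → p ∈ T j' → j = j') →
      (((Fintype.piFinset (fun l => Icc 1 (N l))).filter (fun v => ¬ ∀ x : ℕ, X ≤ x → (∀ l, (x : ℝ) ^ W ≤ f l (N l)) →
        Equidistributed δ T 𝒮 x (fun l => c l + κ l * (⌊f l (v l)⌋₊ : ℕ)))).card : ℝ) ≤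
      (5 * (X : ℝ) ^ (-(δ / 8))) * ∏ l, (N l : ℝ)) := by
  have hD := data2 𝒮 h𝒮
  constructor
  · obtain ⟨W, hW, H⟩ := Pool.Agent.N794.CG.multi_res hD δ hδ hδ1
    refine ⟨W, hW, fun κ hκ => ?_⟩
    obtain ⟨X₀, J⟩ := H κ hκ
    refine ⟨X₀, fun X hX ι q _ s y Z hZ hZq hfl c T hT => le_trans ?_ ((J X hX ι q s y Z hZ hZq hfl c T hT).trans
      (le_of_eq (by norm_num)))⟩
    have hsub : (Fintype.piFinset s).filter (fun i => ¬ ∀ x : ℕ, X ≤ x → (x : ℝ) ^ W ≤ Z →
        Equidistributed δ T 𝒮 x (fun l => c l + κ l * ((y l (i l)).val : ℕ))) ⊆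
        (Fintype.piFinset s).filter (fun i => ¬ ∀ x : ℕ, X ≤ x → (x : ℝ) ^ W ≤ Z →
        Pool.Agent.N794.CG.GoodQ δ T (Pool.Agent.J6H45.ST.prs.disjSum 𝒮) Pool.Agent.J6H45.ST.FF
          Pool.Agent.J6H45.ST.MM x (fun l => c l + κ l * ((y l (i l)).val : ℕ))) := by
      intro v hv
      rw [mem_filter] at hv ⊢
      exact ⟨hv.1, fun h => hv.2 fun x hx hxN => equi_of (h x hx hxN)⟩
    exact_mod_cast card_le_card hsub
  · intro e f he hn hf
    obtain ⟨W, hW, H⟩ := Pool.Agent.N794.CG.multi_sv hD δ hδ hδ1 e f he hn hf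
    refine ⟨W, hW, fun κ hκ => ?_⟩
    obtain ⟨X₀, J⟩ := H κ hκ
    refine ⟨X₀, fun X hX N c T hT => le_trans ?_ ((J X hX N c T hT).trans (le_of_eq (by norm_num)))⟩
    have hsub : (Fintype.piFinset (fun l => Icc 1 (N l))).filter (fun v => ¬ ∀ x : ℕ, X ≤ x → (∀ l, (x : ℝ) ^ W ≤ f l (N l)) →
        Equidistributed δ T 𝒮 x (fun l => c l + κ l * (⌊f l (v l)⌋₊ : ℕ))) ⊆
        (Fintype.piFinset (fun l => Icc 1 (N l))).filter (fun v => ¬ ∀ x : ℕ, X ≤ x → (∀ l, (x : ℝ) ^ W ≤ f l (N l)) →
        Pool.Agent.N794.CG.GoodQ δ T (Pool.Agent.J6H45.ST.prs.disjSum 𝒮) Pool.Agent.J6H45.ST.FF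
          Pool.Agent.J6H45.ST.MM x (fun l => c l + κ l * (⌊f l (v l)⌋₊ : ℕ))) := by
      intro v hv
      rw [mem_filter] at hv ⊢
      exact ⟨hv.1, fun h => hv.2 fun x hx hxN => equi_of (h x hx hxN)⟩
    exact_mod_cast card_le_card hsub

end Pool.Agent.Results.MP_6dc561_nt.ResiduesAndPowers
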