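import Pool.Agent.W529.ST.Hyp
import Pool.Agent.R429.TL.Abs
import Pool.Agent.J6H92.STw.Pair

/-!
# The Sato-Tate law for the quadratic twists of an abelian surface over a number field

`F` is a number field and `A` an abelian surface over `F`, for instance the Jacobian of a curve `y² = f(x)` of genus `2`.  At a
prime `v` of good reduction the normalised `L`-polynomial `1 + a₁ T + a₂ T² + a₁ T³ + T⁴` is `det (1 - T s(v))`, and the pair
`(a₁, a₂)` is the conjugacy class of `s(v)` in `USp(4)`.  `A_D` is the quadratic twist of `A` by the integer `D`.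

The Sato-Tate group contains `-1`, and `s_D(v) = s(v)` or `s_D(v) = - s(v)`, so that the pair for `A_D` is `(a₁, a₂)` or
`(-a₁, a₂)`.  The Sato-Tate law splits into two halves: a law for the functions which are invariant under `s ↦ -s`, which is the
same for all the twists, and a law for the odd functions, which depends on the twist.  We show that the odd half is true
for almost all twists, with a square-root error, and that therefore the law for almost all twists (or for a very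
small proportion of them) is equivalent to the even half for `A`; it follows from the law for a single twist.
-/

set_option autoImplicit false

namespace Pool.Agent.Results.MP_6dc561_nt.TwistDichotomy

open NumberField IsDedekindDomain Filter Topology Polynomial MeasureTheory

/-- What is used of an abelian surface over `F`: the set of the primes of good reduction and the coefficients `a₁`, `a₂` of the
normalised `L`-polynomials `1 + a₁ T + a₂ T² + a₁ T³ + T⁴` at these primes. -/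
structure EulerData (F : Type) [Field F] [NumberField F] where
  /-- the primes of good reduction -/
  good : HeightOneSpectrum (𝓞 F) → Prop
  /-- the coefficient `a₁` -/
  a₁ : HeightOneSpectrum (𝓞 F) → ℝ
  /-- the coefficient `a₂` -/
  a₂ : HeightOneSpectrum (𝓞 F) → ℝ

/-- `B` is the twist of `A` by the quadratic character of `F(√d) / F`, at the primes `v` which do not divide `2 d`. -/
def IsTwist {F : Type} [Field F] [NumberField F] (A B : EulerData F) (d : 𝓞 F) : Prop :=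
  ∀ v : HeightOneSpectrum (𝓞 F), 2 * d ∉ v.asIdeal →
    (B.good v ↔ A.good v) ∧ B.a₂ v = A.a₂ v ∧
    (IsSquare (Ideal.Quotient.mk v.asIdeal d) → B.a₁ v = A.a₁ v) ∧
    (¬ IsSquare (Ideal.Quotient.mk v.asIdeal d) → B.a₁ v = - A.a₁ v)

/-- `A D` is the twist of `A 1` by the integer `D ≠ 0`. -/
def Twists {F : Type} [Field F] [NumberField F] (A : ℤ → EulerData F) : Prop :=
  ∀ D : ℤ, D ≠ 0 → IsTwist (A 1) (A D) (D : 𝓞 F)

/-- Number of points of the smooth projective curve `d y² = f(x)` over the extension of degree `j` of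
the finite field `k`, that is, the field of the elements of the algebraic closure of `k` that are
fixed by the `j`-th power of the Frobenius of `k`: the affine points, and the points at infinity; there
is one if `deg f` is odd, and if `deg f` is even with leading coefficient `c` they are the solutions
`z` of `d z² = c` (`z = y / x ^ (g + 1)`). -/
noncomputable def pointCount (k : Type) [Field k] (f : k[X]) (d : k) (j : ℕ) : ℕ :=
  Nat.card {P : AlgebraicClosure k × AlgebraicClosure k //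
    P.1 ^ (Nat.card k ^ j) = P.1 ∧ P.2 ^ (Nat.card k ^ j) = P.2 ∧
    algebraMap k (AlgebraicClosure k) d * P.2 ^ 2 = aeval P.1 f} +
  if Odd f.natDegree then 1 else
    Nat.card {z : AlgebraicClosure k // z ^ (Nat.card k ^ j) = z ∧
      algebraMap k (AlgebraicClosure k) d * z ^ 2 = algebraMap k (AlgebraicClosure k) f.leadingCoeff}

section
variable {F : Type} [Field F] [NumberField F]

/-- The number `t_j = N_j - 1 - q ^ j`, where `N_j` is the number of points of the reduction of `d y² = f(x)` modulo `v` over the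
extension of degree `j` of the residue field with `q` elements. -/
noncomputable def tr (f : (𝓞 F)[X]) (d : 𝓞 F) (v : HeightOneSpectrum (𝓞 F)) (j : ℕ) : ℝ :=
  haveI : v.asIdeal.IsMaximal := v.isMaximal
  letI : Field (𝓞 F ⧸ v.asIdeal) := Ideal.Quotient.field v.asIdeal
  (pointCount (𝓞 F ⧸ v.asIdeal) (f.map (Ideal.Quotient.mk v.asIdeal)) (Ideal.Quotient.mk v.asIdeal d) j : ℝ) - 1 -
    (Nat.card (𝓞 F ⧸ v.asIdeal) : ℝ) ^ j

/-- `y² = f(x)` has genus `2`: `f` is separable of degree `5` or `6`. -/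
def GenusTwo (f : (𝓞 F)[X]) : Prop :=
  (f.map (algebraMap (𝓞 F) F)).Separable ∧ (f.natDegree = 5 ∨ f.natDegree = 6)

/-- The data of the Jacobian of the curve `d y² = f(x)` of genus `2`.  Good primes: `v` does not divide `2 d`, and the reduction
of `f` modulo `v` is separable of the same degree.  With `L_v(T) = exp (∑ t_j T ^ j / j)`, the normalised `L`-polynomial
`L_v(q ^ (-1/2) T)` has the coefficients `a₁ = t_1 / q ^ (1/2)` and `a₂ = (t_1 ^ 2 + t_2) / (2 q)`. -/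
noncomputable def curve (f : (𝓞 F)[X]) (d : 𝓞 F) : EulerData F where
  good := fun v => 2 * d ∉ v.asIdeal ∧ (f.map (Ideal.Quotient.mk v.asIdeal)).natDegree = f.natDegree ∧
    (f.map (Ideal.Quotient.mk v.asIdeal)).Separable
  a₁ := fun v => tr f d v 1 / Real.sqrt (Ideal.absNorm v.asIdeal)
  a₂ := fun v => (tr f d v 1 ^ 2 + tr f d v 2) / (2 * Ideal.absNorm v.asIdeal)

/-- The number of the primes `v` of `F` of norm at most `x`. -/
noncomputable def primesUpTo (F : Type) [Field F] [NumberField F] (x : ℕ) : ℕ :=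
  Nat.card {v : HeightOneSpectrum (𝓞 F) // Ideal.absNorm v.asIdeal ≤ x}

/-- The number of the good primes `v` of norm at most `x` with `(a₁, a₂) ∈ R`. -/
noncomputable def count (A : EulerData F) (R : Set (ℝ × ℝ)) (x : ℕ) : ℕ :=
  Nat.card {v : HeightOneSpectrum (𝓞 F) // Ideal.absNorm v.asIdeal ≤ x ∧ A.good v ∧ (A.a₁ v, A.a₂ v) ∈ R}

end

/-- A product of two intervals (sets without gaps). -/
def IsBox (R : Set (ℝ × ℝ)) : Prop := ∃ I J : Set ℝ, I.OrdConnected ∧ J.OrdConnected ∧ R = I ×ˢ J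

/-- The set of the points `(u, w)` with `(-u, w) ∈ R`. -/
def reflect (R : Set (ℝ × ℝ)) : Set (ℝ × ℝ) := {z | (-z.1, z.2) ∈ R}

section
variable {F : Type} [Field F] [NumberField F]

/-- The mean of the numbers of the primes `v` of norm at most `x` with `(a₁, a₂) ∈ R` and with `(-a₁, a₂) ∈ R`. -/
noncomputable def evenCount (A : EulerData F) (R : Set (ℝ × ℝ)) (x : ℕ) : ℝ :=
  ((count A R x : ℝ) + count A (reflect R) x) / 2

/-- The law for `A` at `x`, with the error `E`: for all boxes `R` the number of the primes of norm at most `x` with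
`(a₁, a₂) ∈ R` differs from `μ(R)` times the number of the primes by at most `E`. -/
def Law (A : EulerData F) (μ : Measure (ℝ × ℝ)) (x : ℕ) (E : ℝ) : Prop :=
  ∀ R : Set (ℝ × ℝ), IsBox R → |(count A R x : ℝ) - μ.real R * primesUpTo F x| ≤ E

/-- The law for the even functions: the same for the means of the counts for `R` and for the reflected box. -/
def EvenLaw (A : EulerData F) (μ : Measure (ℝ × ℝ)) (x : ℕ) (E : ℝ) : Prop :=
  ∀ R : Set (ℝ × ℝ), IsBox R → |evenCount A R x - μ.real R * primesUpTo F x| ≤ E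

lemma tr_twist (f : (𝓞 F)[X]) {d : 𝓞 F} {v : HeightOneSpectrum (𝓞 F)} (h2d : 2 * d ∉ v.asIdeal) {j : ℕ} (hj : j ≠ 0) :
    tr f d v j = Pool.Agent.W529.ST.ch d v ^ j * tr f 1 v j := by
  have h1 := Pool.Agent.W529.ST.trH_twist v f h2d hj
  have h2 : ∀ e : 𝓞 F, (Pool.Agent.W529.ST.trH v f e j : ℝ) = - tr f e v j := by
    intro e
    unfold Pool.Agent.W529.ST.trH Pool.Agent.W529.ST.trG Pool.Agent.W529.ST.infPts
      Pool.Agent.H126T.affPts tr pointCount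
    push_cast
    ring
  rw [h2, h2] at h1
  linear_combination -h1

lemma ch_sq_one {d : 𝓞 F} {v : HeightOneSpectrum (𝓞 F)} (h2d : 2 * d ∉ v.asIdeal) :
    Pool.Agent.W529.ST.ch d v ^ 2 = 1 := by
  rcases Pool.Agent.W529.ST.ch_dichotomy d h2d with ⟨_, h4⟩ | ⟨_, h4⟩
  · rw [h4]; norm_num
  · rw [h4]; norm_num

lemma isTwist_curve (f : (𝓞 F)[X]) (d : 𝓞 F) : IsTwist (curve f 1) (curve f d) d := by
  intro v h2d
  have h1 : 2 * (1 : 𝓞 F) ∉ v.asIdeal := by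
    intro h
    rw [mul_one] at h
    exact h2d (Ideal.mul_mem_right _ _ h)
  refine ⟨?_, ?_, fun hs => ?_, fun hs => ?_⟩
  · show (2 * d ∉ v.asIdeal ∧ _) ↔ (2 * (1 : 𝓞 F) ∉ v.asIdeal ∧ _)
    tauto
  · show (tr f d v 1 ^ 2 + tr f d v 2) / (2 * Ideal.absNorm v.asIdeal) =
      (tr f 1 v 1 ^ 2 + tr f 1 v 2) / (2 * Ideal.absNorm v.asIdeal)
    rw [tr_twist f h2d one_ne_zero, tr_twist f h2d two_ne_zero, pow_one, mul_pow, ch_sq_one h2d, one_mul, one_mul]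
  · show tr f d v 1 / Real.sqrt (Ideal.absNorm v.asIdeal) = tr f 1 v 1 / Real.sqrt (Ideal.absNorm v.asIdeal)
    rcases Pool.Agent.W529.ST.ch_dichotomy d h2d with ⟨_, h4⟩ | ⟨h3, _⟩
    · rw [tr_twist f h2d one_ne_zero, pow_one, h4, one_mul]
    · exact absurd hs h3
  · show tr f d v 1 / Real.sqrt (Ideal.absNorm v.asIdeal) = - (tr f 1 v 1 / Real.sqrt (Ideal.absNorm v.asIdeal))
    rcases Pool.Agent.W529.ST.ch_dichotomy d h2d with ⟨h3, _⟩ | ⟨_, h4⟩
    · exact absurd h3 hs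
    · rw [tr_twist f h2d one_ne_zero, pow_one, h4]
      ring

lemma isTw {A B : EulerData F} {D : ℤ} (h : IsTwist A B (D : 𝓞 F)) :
    Pool.Agent.J6H92.STw.Tw D A.good A.a₁ A.a₂ B.good B.a₁ B.a₂ := by
  intro v h2d
  obtain ⟨h1, h2, h3, h4⟩ := h v h2d
  refine ⟨h1, ?_, h2⟩
  rcases Pool.Agent.W529.ST.ch_dichotomy (D : 𝓞 F) h2d with ⟨h5, h6⟩ | ⟨h5, h6⟩
  · rw [h6, one_mul]
    exact h3 h5
  · rw [h6, neg_one_mul]
    exact h4 h5

/-- the deviation of the counts for the twist from the even counts -/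
def Dev (A B : EulerData F) (x : ℕ) (η : ℝ) : Prop :=
  ∀ R : Set (ℝ × ℝ), IsBox R → |(count B R x : ℝ) - evenCount A R x| ≤ (x : ℝ) ^ (1 / 2 + η)

lemma dev_iff (A B : EulerData F) (x : ℕ) (η : ℝ) : Dev A B x η ↔
    Pool.Agent.J6H92.STw.Dev A.good A.a₁ A.a₂ B.good B.a₁ B.a₂ x η :=
  Iff.rfl

lemma primes_ge (F : Type) [Field F] [NumberField F] (ε : ℝ) (hε : 0 < ε) :
    ∀ᶠ x : ℕ in atTop, (x : ℝ) ^ (3 / 4 : ℝ) ≤ ε * primesUpTo F x := by
  have h2 := Pool.Agent.W529.ST.sum_div_pc (F := F) (fun _ => (1 : ℝ)) (B := 1) (fun _ => by simp)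
  have h3 : Tendsto (fun N => Pool.Agent.W529.ST.Av N fun p => ∑ ψ : 𝓞 F →+* ZMod (p : ℕ), (1 : ℝ)) atTop (𝓝 1) := by
    have := Pool.Agent.W529.ST.tendsto_Av (Pool.Agent.W529.ST.mean_hc F)
    refine this.congr fun N => ?_
    congr 1
    funext p
    rw [Finset.sum_const, Finset.card_univ, Pool.Agent.W353.TP.card_hom_eq, Pool.Agent.H921R2.TatePole.R_eq_hc,
      nsmul_eq_mul, mul_one]
  have h4 := h2.add h3
  rw [zero_add] at h4
  have h5 : Tendsto (fun N : ℕ => (primesUpTo F N : ℝ) / (Nat.primeCounting N : ℝ)) atTop (𝓝 1) := by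
    refine h4.congr fun N => ?_
    have hfin := (Pool.Agent.W529.ST.finsum_eq (F := F) (fun _ => 0) N).1
    let _ := Fintype.ofFinite {v : HeightOneSpectrum (𝓞 F) // Ideal.absNorm v.asIdeal ≤ N}
    have e2 : (∑ᶠ v : {v : HeightOneSpectrum (𝓞 F) // Ideal.absNorm v.asIdeal ≤ N}, (1 : ℝ)) =
        (primesUpTo F N : ℝ) := by
      unfold primesUpTo
      rw [finsum_eq_sum_of_fintype, Finset.sum_const, Finset.card_univ, nsmul_eq_mul, mul_one,
        Nat.card_eq_fintype_card]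
    rw [e2]
    ring
  -- the logarithm
  have h6 : Tendsto (fun x : ℕ => 8 * (Real.log (x : ℝ) / (x : ℝ) ^ (1 / 4 : ℝ))) atTop (𝓝 0) := by
    have e1 : Tendsto (fun x : ℝ => Real.log x / x ^ (1 / 4 : ℝ)) atTop (𝓝 0) :=
      (isLittleO_log_rpow_atTop (by norm_num)).tendsto_div_nhds_zero
    have e2 := (e1.comp (tendsto_natCast_atTop_atTop (R := ℝ))).const_mul 8
    rw [mul_zero] at e2
    exact e2
  have h7 : ∀ᶠ N : ℕ in atTop, Real.log ((N : ℝ) + 1) ≤ N / 4 := by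
    have e1 : Tendsto (fun x : ℝ => Real.log x / x ^ (1 : ℝ)) atTop (𝓝 0) :=
      (isLittleO_log_rpow_atTop (by norm_num)).tendsto_div_nhds_zero
    have e2 := e1.comp ((tendsto_natCast_atTop_atTop (R := ℝ)).atTop_add (tendsto_const_nhds (x := (1 : ℝ))))
    filter_upwards [e2.eventually (gt_mem_nhds (show (0 : ℝ) < 1 / 8 by norm_num)),
      eventually_ge_atTop 1] with N hN hN1
    simp only [Function.comp_apply, Real.rpow_one] at hN
    have hp : (0 : ℝ) < (N : ℝ) + 1 := by positivity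
    rw [div_lt_iff₀ hp] at hN
    have : (1 : ℝ) ≤ N := by exact_mod_cast hN1
    linarith
  filter_upwards [h5.eventually (lt_mem_nhds (show (1 / 2 : ℝ) < 1 by norm_num)),
    h6.eventually (gt_mem_nhds hε), h7, eventually_ge_atTop 2] with N g1 g2 g3 g4
  have g5 := Chebyshev.pi_ge N
  have hN : (2 : ℝ) ≤ N := by exact_mod_cast g4
  have hlog : 0 < Real.log N := Real.log_pos (by linarith)
  have hl2 : (1 / 2 : ℝ) < Real.log 2 := by
    have := Real.log_two_gt_d9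
    linarith
  have h8 : (N : ℝ) / 4 ≤ N * Real.log 2 - Real.log (N + 1) := by nlinarith
  have h9 : (N : ℝ) / (4 * Real.log N) ≤ (Nat.primeCounting N : ℝ) := by
    refine le_trans ?_ g5
    rw [div_le_div_iff₀ (by positivity) hlog]
    nlinarith
  have hpc : (0 : ℝ) < (Nat.primeCounting N : ℝ) := lt_of_lt_of_le (by positivity) h9
  rw [lt_div_iff₀ hpc] at g1
  have hN4 : (0 : ℝ) < (N : ℝ) ^ (1 / 4 : ℝ) := by positivity
  have h10 : 8 * Real.log N ≤ ε * (N : ℝ) ^ (1 / 4 : ℝ) := by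
    rw [← mul_div_assoc, div_lt_iff₀ hN4] at g2
    exact g2.le
  have h11 : (N : ℝ) = (N : ℝ) ^ (3 / 4 : ℝ) * (N : ℝ) ^ (1 / 4 : ℝ) := by
    rw [← Real.rpow_add (by linarith)]
    norm_num
  have h12 : (N : ℝ) / (8 * Real.log N) ≤ (primesUpTo F N : ℝ) := by
    calc (N : ℝ) / (8 * Real.log N) = 1 / 2 * ((N : ℝ) / (4 * Real.log N)) := by
          field_simp
          norm_num
      _ ≤ 1 / 2 * (Nat.primeCounting N : ℝ) := by linarith
      _ ≤ _ := g1.le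
  calc (N : ℝ) ^ (3 / 4 : ℝ) ≤ ε * ((N : ℝ) / (8 * Real.log N)) := by
        rw [mul_div_assoc', le_div_iff₀ (by positivity)]
        calc (N : ℝ) ^ (3 / 4 : ℝ) * (8 * Real.log N) ≤ (N : ℝ) ^ (3 / 4 : ℝ) * (ε * (N : ℝ) ^ (1 / 4 : ℝ)) :=
              mul_le_mul_of_nonneg_left h10 (by positivity)
          _ = ε * ((N : ℝ) ^ (3 / 4 : ℝ) * (N : ℝ) ^ (1 / 4 : ℝ)) := by ring
          _ = ε * N := by rw [← h11]
    _ ≤ _ := mul_le_mul_of_nonneg_left h12 hε.le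

lemma law_strong {A : ℤ → EulerData F} (hA : Twists A) (η : ℝ) (hη : 0 < η) : ∃ C c : ℝ, 0 < C ∧ 0 < c ∧ ∀ᶠ N : ℕ in atTop,
    (({D : ℤ | D ≠ 0 ∧ |D| ≤ N ∧ ∃ x : ℕ, (Real.log N) ^ C ≤ x ∧ (x : ℝ) ≤ (N : ℝ) ^ c ∧ ¬ Dev (A 1) (A D) x η}.ncard : ℕ) : ℝ) ≤
      (N : ℝ) ^ (1 - c) := by
  obtain ⟨C, c, hC, hc, N₀, h⟩ := Pool.Agent.J6H92.STw.dev_strong (Module.finrank ℚ F) η hη
  refine ⟨C, c, hC, hc, ?_⟩
  filter_upwards [eventually_ge_atTop N₀] with N hN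
  exact h N hN F le_rfl (A 1).good (A 1).a₁ (A 1).a₂ (fun D => (A D).good) (fun D => (A D).a₁)
    (fun D => (A D).a₂) (fun D hD => isTw (hA D hD))

lemma law_weak {A : ℤ → EulerData F} (hA : Twists A) (η : ℝ) (hη : 0 < η) (a : ℝ) : ∀ᶠ x : ℕ in atTop, ∀ᶠ N : ℕ in atTop,
    (({D : ℤ | D ≠ 0 ∧ |D| ≤ N ∧ ¬ Dev (A 1) (A D) x η}.ncard : ℕ) : ℝ) ≤ (x : ℝ) ^ (-a) * N := by
  obtain ⟨K₀, h⟩ := Pool.Agent.J6H92.STw.dev_weak (Module.finrank ℚ F) η a hη
  filter_upwards [eventually_ge_atTop K₀] with K hK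
  obtain ⟨N₁, h1⟩ := h K hK F le_rfl (A 1).good (A 1).a₁ (A 1).a₂ (fun D => (A D).good) (fun D => (A D).a₁)
    (fun D => (A D).a₂) (fun D hD => isTw (hA D hD))
  filter_upwards [eventually_ge_atTop N₁] with N hN
  exact h1 N hN

lemma tri₁ {A B : EulerData F} {μ : Measure (ℝ × ℝ)} {x : ℕ} {η E E' : ℝ} (h : Dev A B x η) (h' : EvenLaw A μ x E)
    (hE : (x : ℝ) ^ (1 / 2 + η) + E ≤ E') : Law B μ x E' := by
  intro R hR
  have e1 := abs_le.1 (h R hR)
  have e2 := abs_le.1 (h' R hR)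
  rw [abs_le]
  constructor <;> linarith [e1.1, e1.2, e2.1, e2.2]

lemma tri₂ {A B : EulerData F} {μ : Measure (ℝ × ℝ)} {x : ℕ} {η E E' : ℝ} (h : Dev A B x η) (h' : Law B μ x E)
    (hE : (x : ℝ) ^ (1 / 2 + η) + E ≤ E') : EvenLaw A μ x E' := by
  intro R hR
  have e1 := abs_le.1 (h R hR)
  have e2 := abs_le.1 (h' R hR)
  rw [abs_le]
  constructor <;> linarith [e1.1, e1.2, e2.1, e2.2]

lemma small₁ (F : Type) [Field F] [NumberField F] (η : ℝ) (hη : 0 < η) : ∀ᶠ x : ℕ in atTop,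
    (x : ℝ) ^ (1 / 2 + min (1 / 4) (η / 2)) + min (1 / 4) (η / 2) * primesUpTo F x ≤ η * primesUpTo F x := by
  filter_upwards [primes_ge F (η / 2) (by positivity), eventually_ge_atTop 1] with x h1 h2
  have hx1 : (1 : ℝ) ≤ x := by exact_mod_cast h2
  have h3 : (x : ℝ) ^ (1 / 2 + min (1 / 4) (η / 2)) ≤ (x : ℝ) ^ (3 / 4 : ℝ) := by
    apply Real.rpow_le_rpow_of_exponent_le hx1
    have := min_le_left (1 / 4 : ℝ) (η / 2)
    linarith
  have h4 : min (1 / 4) (η / 2) * (primesUpTo F x : ℝ) ≤ η / 2 * primesUpTo F x :=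
    mul_le_mul_of_nonneg_right (min_le_right _ _) (Nat.cast_nonneg _)
  linarith

lemma small₂ (θ η : ℝ) (hθ : 1 / 2 ≤ θ) (hη : 0 < η) : ∀ᶠ x : ℕ in atTop,
    (x : ℝ) ^ (1 / 2 + η / 2) + (x : ℝ) ^ (θ + η / 2) ≤ (x : ℝ) ^ (θ + η) := by
  have hev := ((tendsto_rpow_atTop (by positivity : 0 < η / 2)).comp
    tendsto_natCast_atTop_atTop).eventually_ge_atTop (2 : ℝ)
  filter_upwards [hev, eventually_ge_atTop 1] with x h1 h2
  simp only [Function.comp_apply] at h1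
  have hx1 : (1 : ℝ) ≤ x := by exact_mod_cast h2
  have h3 : (x : ℝ) ^ (1 / 2 + η / 2) ≤ (x : ℝ) ^ (θ + η / 2) := Real.rpow_le_rpow_of_exponent_le hx1 (by linarith)
  have h4 : (x : ℝ) ^ (θ + η) = (x : ℝ) ^ (θ + η / 2) * (x : ℝ) ^ (η / 2) := by
    rw [← Real.rpow_add (by linarith)]
    congr 1
    ring
  have h5 : 0 < (x : ℝ) ^ (θ + η / 2) := by positivity
  rw [h4]
  nlinarith

lemma tfae₁ {A : ℤ → EulerData F} (hA : Twists A) (μ : Measure (ℝ × ℝ)) :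
    [∀ η : ℝ, 0 < η → ∀ᶠ x : ℕ in atTop, EvenLaw (A 1) μ x (η * primesUpTo F x),
     ∀ η : ℝ, 0 < η → ∃ C c : ℝ, 0 < c ∧ ∀ᶠ N : ℕ in atTop,
      (({D : ℤ | D ≠ 0 ∧ |D| ≤ N ∧ ∃ x : ℕ, (Real.log N) ^ C ≤ x ∧ (x : ℝ) ≤ (N : ℝ) ^ c ∧
        ¬ Law (A D) μ x (η * primesUpTo F x)}.ncard : ℕ) : ℝ) ≤ (N : ℝ) ^ (1 - c),
     ∀ η : ℝ, 0 < η → ∀ a : ℝ, ∀ᶠ x : ℕ in atTop, ∀ᶠ N : ℕ in atTop,
      (({D : ℤ | D ≠ 0 ∧ |D| ≤ N ∧ ¬ Law (A D) μ x (η * primesUpTo F x)}.ncard : ℕ) : ℝ) ≤ (x : ℝ) ^ (-a) * N,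
     ∀ η : ℝ, 0 < η → ∃ a : ℝ, ∀ᶠ x : ℕ in atTop, ∃ᶠ N : ℕ in atTop,
      (x : ℝ) ^ (-a) * N ≤ (({D : ℤ | D ≠ 0 ∧ |D| ≤ N ∧ Law (A D) μ x (η * primesUpTo F x)}.ncard : ℕ) : ℝ)].TFAE := by
  refine Pool.Agent.R429.TLA.tfae (fun x η => EvenLaw (A 1) μ x (η * primesUpTo F x))
    (fun D x η => Law (A D) μ x (η * primesUpTo F x)) (fun D x η => Dev (A 1) (A D) x η) ?_ ?_
    (fun η hη => law_strong hA η hη) (fun η hη a => law_weak hA η hη a)
  · intro η hη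
    refine ⟨min (1 / 4) (η / 2), by positivity, ?_⟩
    filter_upwards [small₁ F η hη] with x hx D h1 h2
    exact tri₁ h1 h2 hx
  · intro η hη
    refine ⟨min (1 / 4) (η / 2), by positivity, ?_⟩
    filter_upwards [small₁ F η hη] with x hx D h1 h2
    exact tri₂ h1 h2 hx

lemma tfae₂ {A : ℤ → EulerData F} (hA : Twists A) (μ : Measure (ℝ × ℝ)) (θ : ℝ) (hθ : 1 / 2 ≤ θ) :
    [∀ η : ℝ, 0 < η → ∀ᶠ x : ℕ in atTop, EvenLaw (A 1) μ x ((x : ℝ) ^ (θ + η)),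
     ∀ η : ℝ, 0 < η → ∃ C c : ℝ, 0 < c ∧ ∀ᶠ N : ℕ in atTop,
      (({D : ℤ | D ≠ 0 ∧ |D| ≤ N ∧ ∃ x : ℕ, (Real.log N) ^ C ≤ x ∧ (x : ℝ) ≤ (N : ℝ) ^ c ∧
        ¬ Law (A D) μ x ((x : ℝ) ^ (θ + η))}.ncard : ℕ) : ℝ) ≤ (N : ℝ) ^ (1 - c),
     ∀ η : ℝ, 0 < η → ∀ a : ℝ, ∀ᶠ x : ℕ in atTop, ∀ᶠ N : ℕ in atTop,
      (({D : ℤ | D ≠ 0 ∧ |D| ≤ N ∧ ¬ Law (A D) μ x ((x : ℝ) ^ (θ + η))}.ncard : ℕ) : ℝ) ≤ (x : ℝ) ^ (-a) * N,
     ∀ η : ℝ, 0 < η → ∃ a : ℝ, ∀ᶠ x : ℕ in atTop, ∃ᶠ N : ℕ in atTop,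
      (x : ℝ) ^ (-a) * N ≤ (({D : ℤ | D ≠ 0 ∧ |D| ≤ N ∧ Law (A D) μ x ((x : ℝ) ^ (θ + η))}.ncard : ℕ) : ℝ)].TFAE := by
  refine Pool.Agent.R429.TLA.tfae (fun x η => EvenLaw (A 1) μ x ((x : ℝ) ^ (θ + η)))
    (fun D x η => Law (A D) μ x ((x : ℝ) ^ (θ + η))) (fun D x η => Dev (A 1) (A D) x η) ?_ ?_
    (fun η hη => law_strong hA η hη) (fun η hη a => law_weak hA η hη a)
  · intro η hη
    refine ⟨η / 2, by positivity, ?_⟩
    filter_upwards [small₂ θ η hθ hη] with x hx D h1 h2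
    exact tri₁ h1 h2 hx
  · intro η hη
    refine ⟨η / 2, by positivity, ?_⟩
    filter_upwards [small₂ θ η hθ hη] with x hx D h1 h2
    exact tri₂ h1 h2 hx

lemma isBox_reflect {R : Set (ℝ × ℝ)} (hR : IsBox R) : IsBox (reflect R) := by
  obtain ⟨I, J, hI, hJ, rfl⟩ := hR
  refine ⟨{u | -u ∈ I}, J, ⟨?_⟩, hJ, ?_⟩
  · intro u hu w hw z hz
    have h1 := hI.out hw hu
    exact h1 ⟨by linarith [hz.2], by linarith [hz.1]⟩
  · ext z
    rfl

/-- one twist -/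
lemma one_twist {A : ℤ → EulerData F} (hA : Twists A) (μ : Measure (ℝ × ℝ))
    (hμ : ∀ R, IsBox R → μ.real (reflect R) = μ.real R) (D : ℤ) (hD : D ≠ 0) :
    ∃ B : ℝ, ∀ (x : ℕ) (E : ℝ), Law (A D) μ x E → EvenLaw (A 1) μ x (E + B) := by
  obtain ⟨B, hB⟩ := Pool.Agent.J6H92.STw.cnt_pair D hD (isTw (hA D hD))
  refine ⟨B / 2, fun x E h R hR => ?_⟩
  have e1 := abs_le.1 (h R hR)
  have e2 := abs_le.1 (h (reflect R) (isBox_reflect hR))
  rw [hμ R hR] at e2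
  have e3 : |(count (A D) R x : ℝ) + count (A D) (reflect R) x -
      ((count (A 1) R x : ℝ) + count (A 1) (reflect R) x)| ≤ B := hB R x
  have e4 := abs_le.1 e3
  unfold evenCount
  rw [abs_le]
  constructor <;> linarith [e1.1, e1.2, e2.1, e2.2, e4.1, e4.2]

lemma primes_atTop (F : Type) [Field F] [NumberField F] (η B : ℝ) (hη : 0 < η) :
    ∀ᶠ x : ℕ in atTop, B ≤ η * primesUpTo F x := by
  have h := ((tendsto_rpow_atTop (by norm_num : (0 : ℝ) < 3 / 4)).comp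
    tendsto_natCast_atTop_atTop).eventually_ge_atTop B
  filter_upwards [h, primes_ge F η hη] with x h1 h2
  exact h1.trans h2

end

/-- **(0)** For a curve `y² = f(x)` of genus `2` over a number field `F` the data of `d y² = f(x)` are the twist by `d`.

Let `A D`, `D ∈ ℤ` nonzero, be the data of the quadratic twists of an abelian surface over a number field `F` (for instance those
of `D y² = f(x)`), and `μ` a measure on the plane (for the Sato-Tate conjecture: the distribution of `(a₁, a₂)` on the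
Sato-Tate group).

**(1)** Without any hypothesis: for `η > 0` there are `C`, `c > 0`, `N₀`, which depend only on `η` and the degree of `F`, such that
for `N ≥ N₀` all but at most `N ^ (1 - c)` of the integers `0 < |D| ≤ N` satisfy: for ALL `x` between `(log N) ^ C` and `N ^ c` and
ALL boxes `R` the number of the primes of norm at most `x` with `(a₁, a₂) ∈ R` for the twist by `D` differs from the mean of the
numbers with `(a₁, a₂) ∈ R` and `(-a₁, a₂) ∈ R` for `A 1` by at most `x ^ (1/2 + η)`.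

**(2)** The following are equivalent: (a) the law for the even functions, for `A 1`, as `x → ∞`; (b) for every `η > 0`, with some
`C` and `c > 0`, for all but `N ^ (1 - c)` of the `0 < |D| ≤ N` the law for the twist by `D`, up to `η`, for all `x` between
`(log N) ^ C` and `N ^ c`; (c) for all `η > 0` and `a`, for `x` large and `N ≥ N(x)`, the law at `x`, up to `η`, for all but
`x ^ (-a) N` of the `D`; (d) for all `η > 0` and some `a`, for `x` large and infinitely many `N`, this law for at least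
`x ^ (-a) N` of the `D`.

**(3)** The same equivalence with the errors `x ^ (θ + η)` for every `θ ≥ 1/2`.

**(4)** If `μ` is invariant under `(u, w) ↦ (-u, w)` and the law, or the law with the error `x ^ (θ + η)` for all `η > 0`, is true
for ONE twist `D₀`, then (b) is true, without or with this rate: it is true for almost all twists. -/
theorem result :
    (∀ (F : Type) [Field F] [NumberField F] (f : (𝓞 F)[X]), GenusTwo f → ∀ d : 𝓞 F, IsTwist (curve f 1) (curve f d) d) ∧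
    (∀ (n : ℕ) (η : ℝ), 0 < η → ∃ C c : ℝ, 0 < C ∧ 0 < c ∧ ∃ N₀ : ℕ, ∀ N : ℕ, N₀ ≤ N →
      ∀ (F : Type) [Field F] [NumberField F], Module.finrank ℚ F ≤ n → ∀ A : ℤ → EulerData F, Twists A →
      (({D : ℤ | D ≠ 0 ∧ |D| ≤ N ∧ ∃ x : ℕ, (Real.log N) ^ C ≤ x ∧ (x : ℝ) ≤ (N : ℝ) ^ c ∧
        ∃ R : Set (ℝ × ℝ), IsBox R ∧ (x : ℝ) ^ (1 / 2 + η) < |(count (A D) R x : ℝ) - evenCount (A 1) R x|}.ncard : ℕ) : ℝ) ≤
        (N : ℝ) ^ (1 - c)) ∧
    (∀ (F : Type) [Field F] [NumberField F] (A : ℤ → EulerData F), Twists A → ∀ μ : Measure (ℝ × ℝ),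
      [∀ η : ℝ, 0 < η → ∀ᶠ x : ℕ in atTop, EvenLaw (A 1) μ x (η * primesUpTo F x),
       ∀ η : ℝ, 0 < η → ∃ C c : ℝ, 0 < c ∧ ∀ᶠ N : ℕ in atTop,
        (({D : ℤ | D ≠ 0 ∧ |D| ≤ N ∧ ∃ x : ℕ, (Real.log N) ^ C ≤ x ∧ (x : ℝ) ≤ (N : ℝ) ^ c ∧
          ¬ Law (A D) μ x (η * primesUpTo F x)}.ncard : ℕ) : ℝ) ≤ (N : ℝ) ^ (1 - c),
       ∀ η : ℝ, 0 < η → ∀ a : ℝ, ∀ᶠ x : ℕ in atTop, ∀ᶠ N : ℕ in atTop,
        (({D : ℤ | D ≠ 0 ∧ |D| ≤ N ∧ ¬ Law (A D) μ x (η * primesUpTo F x)}.ncard : ℕ) : ℝ) ≤ (x : ℝ) ^ (-a) * N,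
       ∀ η : ℝ, 0 < η → ∃ a : ℝ, ∀ᶠ x : ℕ in atTop, ∃ᶠ N : ℕ in atTop, (x : ℝ) ^ (-a) * N ≤
        (({D : ℤ | D ≠ 0 ∧ |D| ≤ N ∧ Law (A D) μ x (η * primesUpTo F x)}.ncard : ℕ) : ℝ)].TFAE) ∧
    (∀ (F : Type) [Field F] [NumberField F] (A : ℤ → EulerData F), Twists A → ∀ (μ : Measure (ℝ × ℝ)) (θ : ℝ), 1 / 2 ≤ θ →
      [∀ η : ℝ, 0 < η → ∀ᶠ x : ℕ in atTop, EvenLaw (A 1) μ x ((x : ℝ) ^ (θ + η)),
       ∀ η : ℝ, 0 < η → ∃ C c : ℝ, 0 < c ∧ ∀ᶠ N : ℕ in atTop,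
        (({D : ℤ | D ≠ 0 ∧ |D| ≤ N ∧ ∃ x : ℕ, (Real.log N) ^ C ≤ x ∧ (x : ℝ) ≤ (N : ℝ) ^ c ∧
          ¬ Law (A D) μ x ((x : ℝ) ^ (θ + η))}.ncard : ℕ) : ℝ) ≤ (N : ℝ) ^ (1 - c),
       ∀ η : ℝ, 0 < η → ∀ a : ℝ, ∀ᶠ x : ℕ in atTop, ∀ᶠ N : ℕ in atTop,
        (({D : ℤ | D ≠ 0 ∧ |D| ≤ N ∧ ¬ Law (A D) μ x ((x : ℝ) ^ (θ + η))}.ncard : ℕ) : ℝ) ≤ (x : ℝ) ^ (-a) * N,
       ∀ η : ℝ, 0 < η → ∃ a : ℝ, ∀ᶠ x : ℕ in atTop, ∃ᶠ N : ℕ in atTop, (x : ℝ) ^ (-a) * N ≤
        (({D : ℤ | D ≠ 0 ∧ |D| ≤ N ∧ Law (A D) μ x ((x : ℝ) ^ (θ + η))}.ncard : ℕ) : ℝ)].TFAE) ∧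
    (∀ (F : Type) [Field F] [NumberField F] (A : ℤ → EulerData F), Twists A → ∀ μ : Measure (ℝ × ℝ),
      (∀ R, IsBox R → μ.real (reflect R) = μ.real R) → ∀ D₀ : ℤ, D₀ ≠ 0 →
      ((∀ η : ℝ, 0 < η → ∀ᶠ x : ℕ in atTop, Law (A D₀) μ x (η * primesUpTo F x)) →
        ∀ η : ℝ, 0 < η → ∃ C c : ℝ, 0 < c ∧ ∀ᶠ N : ℕ in atTop,
        (({D : ℤ | D ≠ 0 ∧ |D| ≤ N ∧ ∃ x : ℕ, (Real.log N) ^ C ≤ x ∧ (x : ℝ) ≤ (N : ℝ) ^ c ∧
          ¬ Law (A D) μ x (η * primesUpTo F x)}.ncard : ℕ) : ℝ) ≤ (N : ℝ) ^ (1 - c)) ∧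
      (∀ θ : ℝ, 1 / 2 ≤ θ → (∀ η : ℝ, 0 < η → ∀ᶠ x : ℕ in atTop, Law (A D₀) μ x ((x : ℝ) ^ (θ + η))) →
        ∀ η : ℝ, 0 < η → ∃ C c : ℝ, 0 < c ∧ ∀ᶠ N : ℕ in atTop,
        (({D : ℤ | D ≠ 0 ∧ |D| ≤ N ∧ ∃ x : ℕ, (Real.log N) ^ C ≤ x ∧ (x : ℝ) ≤ (N : ℝ) ^ c ∧
          ¬ Law (A D) μ x ((x : ℝ) ^ (θ + η))}.ncard : ℕ) : ℝ) ≤ (N : ℝ) ^ (1 - c))) := by
  refine ⟨fun F _ _ f _ d => isTwist_curve f d, ?_, fun F _ _ A hA μ => tfae₁ hA μ,
    fun F _ _ A hA μ θ hθ => tfae₂ hA μ θ hθ, fun F _ _ A hA μ hμ D₀ hD₀ => ⟨fun hL => ?_, fun θ hθ hL => ?_⟩⟩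
  · intro n η hη
    obtain ⟨C, c, hC, hc, N₀, h⟩ := Pool.Agent.J6H92.STw.dev_strong n η hη
    refine ⟨C, c, hC, hc, N₀, fun N hN F _ _ hn A hA => ?_⟩
    have h1 := h N hN F hn (A 1).good (A 1).a₁ (A 1).a₂ (fun D => (A D).good) (fun D => (A D).a₁)
      (fun D => (A D).a₂) (fun D hD => isTw (hA D hD))
    refine le_trans (le_of_eq ?_) h1
    congr 2
    ext D
    have e : ∀ x : ℕ, (∃ R : Set (ℝ × ℝ), IsBox R ∧ (x : ℝ) ^ (1 / 2 + η) < |(count (A D) R x : ℝ) - evenCount (A 1) R x|) ↔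
        ¬ Dev (A 1) (A D) x η := by
      intro x
      unfold Dev
      push Not
      rfl
    exact and_congr_right fun _ => and_congr_right fun _ => exists_congr fun x =>
      and_congr_right fun _ => and_congr_right fun _ => e x
  · refine ((tfae₁ hA μ).out 0 1).1 fun η hη => ?_
    obtain ⟨B, hB⟩ := one_twist hA μ hμ D₀ hD₀
    filter_upwards [hL (η / 2) (by positivity), primes_atTop F (η / 2) B (by positivity)] with x h1 h2
    intro R hR
    refine (hB x _ h1 R hR).trans ?_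
    linarith
  · refine ((tfae₂ hA μ θ hθ).out 0 1).1 fun η hη => ?_
    obtain ⟨B, hB⟩ := one_twist hA μ hμ D₀ hD₀
    have hev := ((tendsto_rpow_atTop (by positivity : 0 < η / 2)).comp
      tendsto_natCast_atTop_atTop).eventually_ge_atTop (1 + |B|)
    filter_upwards [hL (η / 2) (by positivity), hev, eventually_ge_atTop 1] with x h1 h2 h3
    simp only [Function.comp_apply] at h2
    intro R hR
    refine (hB x _ h1 R hR).trans ?_
    have hx1 : (1 : ℝ) ≤ x := by exact_mod_cast h3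
    have h4 : (x : ℝ) ^ (θ + η) = (x : ℝ) ^ (θ + η / 2) * (x : ℝ) ^ (η / 2) := by
      rw [← Real.rpow_add (by linarith)]
      congr 1
      ring
    have h5 : 1 ≤ (x : ℝ) ^ (θ + η / 2) := Real.one_le_rpow hx1 (by linarith)
    have h6 := le_abs_self B
    have h7 := abs_nonneg B
    rw [h4]
    nlinarith

end Pool.Agent.Results.MP_6dc561_nt.TwistDichotomy
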