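import Pool.Agent.J6H45.ST.WR3

/-!
# The coefficients `a_1(p)` and `a_2(p)` of the normalized Euler factors of almost all abelian surfaces `Res_{K/ℚ} E` and
# `E × E'` in thin families

Let `a`, `b` be integers with `a ^ 2 + 4 b ≠ 0` and `ω` a root of `X ^ 2 - a X - b`. For a vector `m` of six integers let `E` be
the elliptic curve `y ^ 2 = x ^ 3 + (m 4 + m 5 ω) x ^ 2 + (m 2 + m 3 ω) x + (m 0 + m 1 ω)`. If `a ^ 2 + 4 b` is not a square, then `E`
is a curve over the quadratic field `K = ℚ(ω)`, and the abelian surface is its Weil restriction `Res_{K/ℚ} E`; if `a ^ 2 + 4 b` is a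
square, then the abelian surface is the product of the two curves over `ℚ` which belong to the two roots `ω ∈ ℚ`. The Sato-Tate
groups of almost all of these surfaces are the normalizer of the group `SU(2) × SU(2)` of the pairs of matrices, and this group.

The six coefficients run through arbitrary automatic sets of more than polylogarithmic size, or they are independent random integers
whose blocks of digits can be exchanged, or residues with small Fourier coefficients, or integer parts of the values of functions of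
non-integral index. For almost all of these surfaces, and for all `x` in an explicit range, the pairs `(a_1(p), a_2(p))`, `p ≤ x`,
have the first joint moments of the component of the Sato-Tate group which belongs to the splitting of `p` in `K`, and they are
distributed as for all the surfaces modulo `p`, with square-root error, along any sets of primes.

Definitions used, in `Pool/Agent/J6H45/ST/WR1.lean`, `WR2.lean` and `WR3.lean`: `roots a b k`: the roots of `X ^ 2 - a X - b` in the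
field `k`; `cubic m k r`: the cubic polynomial for the root `r`; `trace m k r`: the normalized trace of the elliptic curve with this
polynomial; `Good a b p m`: the reduction at `p` is good, and `p` does not divide `2 (a ^ 2 + 4 b)`; `a₁ a b p m`, `a₂ a b p m`: the
coefficients of the normalized Euler factor; `cat n`: the mean of the `n`-th power of the trace over `SU(2)`, for `n ≤ 5`;
`momentSplit i k`, `momentInert i k`: the means of `a_1 ^ i a_2 ^ k` over the two components; `moment a b p i k`: the mean over the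
component which belongs to `p`; `model a b p ψ`: the mean of `ψ (a_1, a_2)` over the vectors of coefficients modulo `p`; `primesIn T x`:
the primes `p ≤ x` in `T`; `Equidistributed`: the property of a surface described above. From Mathlib: `DFA`: deterministic automata;
`Nat.digits`: the digits, the least significant first; `ZMod.stdAddChar`: the additive character `j ↦ exp (2 π i j / q)` of the
integers modulo `q`; `ZMod.val`: the least residue; `GaloisField p 2`: the field with `p ^ 2` elements; `∑ᶠ`, `∏ᶠ`: finite sums and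
products; `ContDiffAt ℝ ⊤`: infinitely differentiable at a point; `iteratedDeriv m f`: the derivative of order `m`; `⌊y⌋₊`: the
integer part of `y`, and `0` for `y < 0`.

Method: the vectors of coefficients modulo `p` correspond bijectively to the pairs of cubic polynomials over `F_p` (if `p` splits)
and to the cubic polynomials over the field with `p ^ 2` elements (if `p` is inert); so the local means are given by the moments of
the family of all cubic polynomials (`Pool.Agent.Y57.FD.Mom`), up to `O(1 / p)`. The exponential sums over the members of the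
families have the decay which is needed for the passage to sums over primes (`Pool.Agent.N625.PT`, `Pool.Agent.H491R4.AF`,
`Pool.Agent.N384.MQ`, `Pool.Agent.N193.PS`, `Pool.Agent.R459.Eq`), one variable after the other (`Pool.Agent.N794.CG.Multi`).
-/

set_option autoImplicit false

namespace Pool.Agent.Results.MP_6dc561_nt.WeilRestrictions

open Finset Filter
open Pool.Agent.J6H45.ST.WR (Equidistributed data6 equi_of)

open Classical in
/-- The integers `0 ≤ v < N` whose digits in base `b` (the least significant first) are accepted by the finite automaton `M`. -/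
noncomputable def accepted {σ : Type} (b : ℕ) (M : DFA ℕ σ) (N : ℕ) : Finset ℕ :=
  (range N).filter (fun v => Nat.digits b v ∈ M.accepts)

lemma accepted_eq {σ : Type} (b : ℕ) (M : DFA ℕ σ) (N : ℕ) : accepted b M N = Pool.Agent.N794.CG.mem b M N := by
  unfold accepted Pool.Agent.N794.CG.mem
  congr!

/-- The probability, for the distribution `μ` on the words of `k` digits (the integers `v < b ^ k`), that the word begins with
the `i` digits of `u < b ^ i`. -/
noncomputable def begins (b k : ℕ) (μ : ℕ → ℝ) (i u : ℕ) : ℝ := ∑ w ∈ range (b ^ (k - i)), μ (u * b ^ (k - i) + w)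

/-- `p` is a probability on the words of `k` digits in base `b`, read as integers `v < b ^ k`. There is another probability
`μ` with `p ≤ k ^ T μ` such that after every beginning `u` two different blocks `a`, `a'` of `L` digits can be exchanged:
`p (u a w) = r p (u a' w)` for all endings `w`, with a factor `r` between `η` and `1 / η` which does not depend on `w`; and
given the beginning `u`, each of the two blocks comes next with a probability of at least `η` in the distribution `μ`.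
(For `T = 0` one has `μ = p`. For the uniform distribution on a set of words `r` is `1`.) -/
structure Exchangeable (b L : ℕ) (η : ℝ) (T k : ℕ) (p : ℕ → ℝ) : Prop where
  nonneg : ∀ v, 0 ≤ p v
  sum : ∑ v ∈ range (b ^ k), p v = 1
  dominated : ∃ μ : ℕ → ℝ, (∀ v, 0 ≤ μ v) ∧ ∑ v ∈ range (b ^ k), μ v = 1 ∧ (∀ v < b ^ k, p v ≤ (k : ℝ) ^ T * μ v) ∧
    ∀ i u : ℕ, i + L ≤ k → u < b ^ i → ∃ (a a' : ℕ) (r : ℝ), a < a' ∧ a' < b ^ L ∧ η ≤ r ∧ η * r ≤ 1 ∧
      (∀ w < b ^ (k - (i + L)), p ((b ^ L * u + a) * b ^ (k - (i + L)) + w) = r * p ((b ^ L * u + a') * b ^ (k - (i + L)) + w)) ∧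
      η * begins b k μ i u ≤ begins b k μ (i + L) (b ^ L * u + a) ∧
      η * begins b k μ i u ≤ begins b k μ (i + L) (b ^ L * u + a')

lemma begins_sum (b k : ℕ) (μ : ℕ → ℝ) (i u : ℕ) (hi : i < k) :
    ∑ a ∈ range b, begins b k μ (i + 1) (b * u + a) = begins b k μ i u := by
  unfold begins
  obtain ⟨n, hn⟩ : ∃ n, k - i = n + 1 := ⟨k - i - 1, by omega⟩
  have h1 : k - (i + 1) = n := by omega
  rw [h1, hn, pow_succ, mul_comm (b ^ n) b, Pool.Agent.N625.PT.sum_blocks b (b ^ n)]
  apply sum_congr rfl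
  intro a _
  apply sum_congr rfl
  intro w _
  congr 1
  ring

lemma flex_of {b L T k : ℕ} {η : ℝ} {p : ℕ → ℝ} (hp : Exchangeable b L η T k p) : Pool.Agent.N625.PT.Flex b L η T k p := by
  obtain ⟨h0, h1, μ, m0, m1, m2, m3⟩ := hp
  have hT : (0 : ℝ) ≤ (k : ℝ) ^ T := by positivity
  have hb0 : ∀ i u, 0 ≤ begins b k μ i u := fun i u => sum_nonneg fun w _ => m0 _
  refine ⟨h0, h1, fun i u => (k : ℝ) ^ T * begins b k μ i u, fun i u => mul_nonneg hT (hb0 i u), ?_, ?_, ?_, ?_⟩
  · intro v hv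
    refine (m2 v hv).trans (le_of_eq ?_)
    unfold begins
    simp
  · intro i hi u _
    simp only
    rw [← mul_sum, begins_sum b k μ i u hi]
  · simp only
    have : begins b k μ 0 0 = 1 := by
      unfold begins
      simpa using m1
    rw [this, mul_one]
  · intro i u hi hu
    obtain ⟨a, a', r, q1, q2, q3, q4, q5, q6, q7⟩ := m3 i u hi hu
    refine ⟨a, a', r, q1, q2, q3, q4, q5, ?_, ?_⟩
    · simp only
      calc η * ((k : ℝ) ^ T * begins b k μ i u) = (k : ℝ) ^ T * (η * begins b k μ i u) := by ring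
        _ ≤ _ := mul_le_mul_of_nonneg_left q6 hT
    · simp only
      calc η * ((k : ℝ) ^ T * begins b k μ i u) = (k : ℝ) ^ T * (η * begins b k μ i u) := by ring
        _ ≤ _ := mul_le_mul_of_nonneg_left q7 hT

/-- The Fourier coefficients of the residues `y i`, `i ∈ s`, modulo `q` at the nonzero frequencies are at most
`η` times the number of the residues: `|∑ i ∈ s, e(h y_i / q)| ≤ η |s|` for all `h ≠ 0` modulo `q`. -/
def Flat {ι : Type} (q : ℕ) [NeZero q] (η : ℝ) (s : Finset ι) (y : ι → ZMod q) : Prop :=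
  ∀ h : ZMod q, h ≠ 0 → ‖∑ i ∈ s, (ZMod.stdAddChar (h * y i) : ℂ)‖ ≤ η * s.card

/-- `f` is smoothly varying of index `c`: it is infinitely differentiable and positive for large arguments, and
`t ^ m f⁽ᵐ⁾(t) / f(t) → c (c - 1) ... (c - m + 1)` for every `m`. -/
def SmoothlyVarying (c : ℝ) (f : ℝ → ℝ) : Prop :=
  (∃ t₀ : ℝ, ∀ t > t₀, ContDiffAt ℝ ((⊤ : ℕ∞) : WithTop ℕ∞) f t ∧ 0 < f t) ∧
  ∀ m : ℕ, Tendsto (fun t => t ^ m * iteratedDeriv m f t / f t) atTop (nhds (∏ i ∈ range m, (c - i)))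

open Classical in
/-- Let `a ^ 2 + 4 b ≠ 0`, `0 < δ ≤ 1`, and let `𝒮` be a finite set of bounded functions of two real variables. The sets `T j` of
primes below are disjoint for different `j` and otherwise arbitrary. For the abelian surface with the coefficients `m` (see above)
the property `Equidistributed a b δ T 𝒮 x m` says: the sums over the primes `p ≤ x` in `T j` of `a_1(p) ^ i a_2(p) ^ k` (`i + k ≤ 5`)
and of `ψ (a_1(p), a_2(p))`, `ψ ∈ 𝒮`, are as expected, up to an error of at most the square root of the number of the primes `p ≤ 2 x`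
in `T j` times `x ^ δ`, for all `j ≤ x ^ (δ / 4)`.

**(1) Automatic sets.** Let `S_l`, `l = 0, ..., 5`, be the sets of the integers `v ≥ 0` whose digits in base `β l ≥ 2` are accepted by
finite automata `M l`, and suppose that the `S_l` have more than polylogarithmic size: for every `k` there are infinitely many `N`
such that more than `(log N) ^ k` elements of `S_l` are smaller than `N`. There are `W` and `e` such that for all nonzero `κ l`, all
sufficiently large `X`, all `N l`, `c l` and `T`: all the vectors `v` with `v l ∈ S_l`, `v l < N l`, up to a proportion of at most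
`(∑ (1 + log N l) ^ e) X ^ (- δ / 8)`, have the property that `Equidistributed a b δ T 𝒮 x m`, `m l = c l + κ l v l`, is true for ALL
`x ≥ X` with `x ^ W ≤ N l` for all `l`.

**(2) Exchangeable digits.** Let `β ≥ 2`, `L ≥ 1`, `0 < η ≤ 1` and `T₀` be given. There is `W` such that for all nonzero `κ l`, all
sufficiently large `X`, all numbers `k l` of digits, all probabilities `P l` on the words of `k l` digits in which blocks of `L` digits
can be exchanged (`Exchangeable β L η T₀ (k l) (P l)`), all `c l` and `T`: if the `v l` are independent random integers with the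
distributions `P l`, then the probability that `Equidistributed a b δ T 𝒮 x m`, `m l = c l + κ l v l`, fails for some `x ≥ X` with
`x ^ W ≤ β ^ k l` for all `l` is at most `(∑ (k l) ^ T₀) X ^ (- δ / 8)`.

**(3) Residues.** There is `W` such that for all nonzero `κ l`, all sufficiently large `X`, all finite families `y l i`, `i ∈ s l`, of
residues modulo any `q l` whose Fourier coefficients at the nonzero frequencies are at most `|s l| / (Z (42 + 3 log q l))`, where
`0 < Z ≤ q l`, and all `c l` and `T`: all the vectors `i` of indices `i l ∈ s l`, up to a proportion of at most `6 X ^ (- δ / 8)`, have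
the property that `Equidistributed a b δ T 𝒮 x m`, `m l = c l + κ l v l` with the least residues `v l` of `y l (i l)`, is true for ALL
`x ≥ X` with `x ^ W ≤ Z`.

**(4) Functions of non-integral index.** Let `f l` be smoothly varying functions of indices `e l > 0` which are not integers, for
instance `f l (t) = t ^ e l`. There is `W` such that for all nonzero `κ l`, all sufficiently large `X`, all `N l`, `c l` and `T`: all
the vectors `v` with `1 ≤ v l ≤ N l`, up to a proportion of at most `6 X ^ (- δ / 8)`, have the property that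
`Equidistributed a b δ T 𝒮 x m`, `m l = c l + κ l ⌊f l (v l)⌋`, is true for ALL `x ≥ X` with `x ^ W ≤ f l (N l)` for all `l`. -/
theorem result (a b : ℤ) (hd : a ^ 2 + 4 * b ≠ 0) (δ : ℝ) (hδ : 0 < δ) (hδ1 : δ ≤ 1) (𝒮 : Finset (ℝ → ℝ → ℝ))
    (h𝒮 : ∀ ψ ∈ 𝒮, ∃ C : ℝ, ∀ s t : ℝ, |ψ s t| ≤ C) :
    (∀ (σ : Fin 6 → Type) [∀ l, Fintype (σ l)] (β : Fin 6 → ℕ), (∀ l, 2 ≤ β l) → ∀ M : ∀ l, DFA ℕ (σ l),
      (∀ l, ∀ k : ℕ, ∃ᶠ N : ℕ in atTop, Real.log N ^ k < ((accepted (β l) (M l) N).card : ℝ)) →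
      ∃ W e : ℕ, 1 ≤ W ∧ ∀ κ : Fin 6 → ℤ, (∀ l, κ l ≠ 0) → ∃ X₀ : ℕ, ∀ X : ℕ, X₀ ≤ X →
      ∀ (N : Fin 6 → ℕ) (c : Fin 6 → ℤ) (T : ℕ → Set ℕ), (∀ p j j', p ∈ T j → p ∈ T j' → j = j') →
      (((Fintype.piFinset (fun l => accepted (β l) (M l) (N l))).filter (fun v => ¬ ∀ x : ℕ, X ≤ x → (∀ l, x ^ W ≤ N l) →
        Equidistributed a b δ T 𝒮 x (fun l => c l + κ l * (v l : ℕ)))).card : ℝ) ≤
      ((∑ l, (1 + Real.log (N l)) ^ e) * (X : ℝ) ^ (-(δ / 8))) * ∏ l, ((accepted (β l) (M l) (N l)).card : ℝ)) ∧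
    (∀ β L : ℕ, 2 ≤ β → 1 ≤ L → ∀ η : ℝ, 0 < η → η ≤ 1 → ∀ T₀ : ℕ,
      ∃ W : ℕ, 1 ≤ W ∧ ∀ κ : Fin 6 → ℤ, (∀ l, κ l ≠ 0) → ∃ X₀ : ℕ, ∀ X : ℕ, X₀ ≤ X →
      ∀ (k : Fin 6 → ℕ) (P : Fin 6 → ℕ → ℝ), (∀ l, Exchangeable β L η T₀ (k l) (P l)) →
      ∀ (c : Fin 6 → ℤ) (T : ℕ → Set ℕ), (∀ p j j', p ∈ T j → p ∈ T j' → j = j') →
      ∑ v ∈ Fintype.piFinset (fun l => range (β ^ k l)), (if ∀ x : ℕ, X ≤ x → (∀ l, x ^ W ≤ β ^ k l) →
        Equidistributed a b δ T 𝒮 x (fun l => c l + κ l * (v l : ℕ)) then 0 else ∏ l, P l (v l)) ≤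
      (∑ l, (k l : ℝ) ^ T₀) * (X : ℝ) ^ (-(δ / 8))) ∧
    (∃ W : ℕ, 1 ≤ W ∧ ∀ κ : Fin 6 → ℤ, (∀ l, κ l ≠ 0) → ∃ X₀ : ℕ, ∀ X : ℕ, X₀ ≤ X →
      ∀ (ι : Fin 6 → Type) (q : Fin 6 → ℕ) [∀ l, NeZero (q l)] (s : ∀ l, Finset (ι l)) (y : ∀ l, ι l → ZMod (q l)) (Z : ℝ),
      0 < Z → (∀ l, Z ≤ q l) → (∀ l, Flat (q l) (1 / (Z * (42 + 3 * Real.log (q l)))) (s l) (y l)) →
      ∀ (c : Fin 6 → ℤ) (T : ℕ → Set ℕ), (∀ p j j', p ∈ T j → p ∈ T j' → j = j') →
      (((Fintype.piFinset s).filter (fun i => ¬ ∀ x : ℕ, X ≤ x → (x : ℝ) ^ W ≤ Z →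
        Equidistributed a b δ T 𝒮 x (fun l => c l + κ l * ((y l (i l)).val : ℕ)))).card : ℝ) ≤
      (6 * (X : ℝ) ^ (-(δ / 8))) * ∏ l, ((s l).card : ℝ)) ∧
    (∀ (e : Fin 6 → ℝ) (f : Fin 6 → ℝ → ℝ), (∀ l, 0 < e l) → (∀ l, ∀ m : ℕ, e l ≠ m) → (∀ l, SmoothlyVarying (e l) (f l)) →
      ∃ W : ℕ, 1 ≤ W ∧ ∀ κ : Fin 6 → ℤ, (∀ l, κ l ≠ 0) → ∃ X₀ : ℕ, ∀ X : ℕ, X₀ ≤ X →
      ∀ (N : Fin 6 → ℕ) (c : Fin 6 → ℤ) (T : ℕ → Set ℕ), (∀ p j j', p ∈ T j → p ∈ T j' → j = j') →
      (((Fintype.piFinset (fun l => Icc 1 (N l))).filter (fun v => ¬ ∀ x : ℕ, X ≤ x → (∀ l, (x : ℝ) ^ W ≤ f l (N l)) →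
        Equidistributed a b δ T 𝒮 x (fun l => c l + κ l * (⌊f l (v l)⌋₊ : ℕ)))).card : ℝ) ≤
      (6 * (X : ℝ) ^ (-(δ / 8))) * ∏ l, (N l : ℝ)) := by
  have hD := data6 a b hd 𝒮 h𝒮
  refine ⟨?_, ?_, ?_, ?_⟩
  · intro σ _ β hb M hS
    simp only [accepted_eq] at hS ⊢
    obtain ⟨W, e, hW, H⟩ := Pool.Agent.N794.CG.multi_aut hD δ hδ hδ1 σ β hb M hS
    refine ⟨W, e, hW, fun κ hκ => ?_⟩
    obtain ⟨X₀, J⟩ := H κ hκ
    refine ⟨X₀, fun X hX N c T hT => le_trans ?_ (J X hX N c T hT)⟩
    have hsub : (Fintype.piFinset (fun l => Pool.Agent.N794.CG.mem (β l) (M l) (N l))).filter (fun v => ¬ ∀ x : ℕ, X ≤ x →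
        (∀ l, x ^ W ≤ N l) → Equidistributed a b δ T 𝒮 x (fun l => c l + κ l * (v l : ℕ))) ⊆
        (Fintype.piFinset (fun l => Pool.Agent.N794.CG.mem (β l) (M l) (N l))).filter (fun v => ¬ ∀ x : ℕ, X ≤ x →
        (∀ l, x ^ W ≤ N l) → Pool.Agent.N794.CG.GoodQ δ T (Pool.Agent.J6H45.ST.WR.prs.disjSum 𝒮) (Pool.Agent.J6H45.ST.WR.FF a b)
          (Pool.Agent.J6H45.ST.WR.MM a b) x (fun l => c l + κ l * (v l : ℕ))) := by
      intro v hv
      rw [mem_filter] at hv ⊢
      exact ⟨hv.1, fun h => hv.2 fun x hx hxN => equi_of (h x hx hxN)⟩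
    exact_mod_cast card_le_card hsub
  · intro β L hb hL η hη0 hη1 T₀
    obtain ⟨W, hW, H⟩ := Pool.Agent.N794.CG.multi_flex hD δ hδ hδ1 β L hb hL η hη0 hη1 T₀
    refine ⟨W, hW, fun κ hκ => ?_⟩
    obtain ⟨X₀, J⟩ := H κ hκ
    refine ⟨X₀, fun X hX k P hP c T hT => le_trans ?_ (J X hX k P (fun l => flex_of (hP l)) c T hT)⟩
    apply sum_le_sum
    intro v _
    have h0 : 0 ≤ ∏ l, P l (v l) := prod_nonneg fun l _ => (hP l).nonneg _
    by_cases h1 : ∀ x : ℕ, X ≤ x → (∀ l, x ^ W ≤ β ^ k l) → Pool.Agent.N794.CG.GoodQ δ T (Pool.Agent.J6H45.ST.WR.prs.disjSum 𝒮)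
        (Pool.Agent.J6H45.ST.WR.FF a b) (Pool.Agent.J6H45.ST.WR.MM a b) x (fun l => c l + κ l * (v l : ℕ))
    · rw [if_pos h1, if_pos (fun x hx hxN => equi_of (h1 x hx hxN))]
    · rw [if_neg h1]
      split_ifs
      · exact h0
      · exact le_rfl
  · obtain ⟨W, hW, H⟩ := Pool.Agent.N794.CG.multi_res hD δ hδ hδ1
    refine ⟨W, hW, fun κ hκ => ?_⟩
    obtain ⟨X₀, J⟩ := H κ hκ
    refine ⟨X₀, fun X hX ι q _ s y Z hZ hZq hfl c T hT => le_trans ?_ ((J X hX ι q s y Z hZ hZq hfl c T hT).trans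
      (le_of_eq (by norm_num)))⟩
    have hsub : (Fintype.piFinset s).filter (fun i => ¬ ∀ x : ℕ, X ≤ x → (x : ℝ) ^ W ≤ Z →
        Equidistributed a b δ T 𝒮 x (fun l => c l + κ l * ((y l (i l)).val : ℕ))) ⊆
        (Fintype.piFinset s).filter (fun i => ¬ ∀ x : ℕ, X ≤ x → (x : ℝ) ^ W ≤ Z →
        Pool.Agent.N794.CG.GoodQ δ T (Pool.Agent.J6H45.ST.WR.prs.disjSum 𝒮) (Pool.Agent.J6H45.ST.WR.FF a b)
          (Pool.Agent.J6H45.ST.WR.MM a b) x (fun l => c l + κ l * ((y l (i l)).val : ℕ))) := by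
      intro v hv
      rw [mem_filter] at hv ⊢
      exact ⟨hv.1, fun h => hv.2 fun x hx hxN => equi_of (h x hx hxN)⟩
    exact_mod_cast card_le_card hsub
  · intro e f he hn hf
    obtain ⟨W, hW, H⟩ := Pool.Agent.N794.CG.multi_sv hD δ hδ hδ1 e f he hn hf
    refine ⟨W, hW, fun κ hκ => ?_⟩
    obtain ⟨X₀, J⟩ := H κ hκ
    refine ⟨X₀, fun X hX N c T hT => le_trans ?_ ((J X hX N c T hT).trans (le_of_eq (by norm_num)))⟩
    have hsub : (Fintype.piFinset (fun l => Icc 1 (N l))).filter (fun v => ¬ ∀ x : ℕ, X ≤ x → (∀ l, (x : ℝ) ^ W ≤ f l (N l)) →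
        Equidistributed a b δ T 𝒮 x (fun l => c l + κ l * (⌊f l (v l)⌋₊ : ℕ))) ⊆
        (Fintype.piFinset (fun l => Icc 1 (N l))).filter (fun v => ¬ ∀ x : ℕ, X ≤ x → (∀ l, (x : ℝ) ^ W ≤ f l (N l)) →
        Pool.Agent.N794.CG.GoodQ δ T (Pool.Agent.J6H45.ST.WR.prs.disjSum 𝒮) (Pool.Agent.J6H45.ST.WR.FF a b)
          (Pool.Agent.J6H45.ST.WR.MM a b) x (fun l => c l + κ l * (⌊f l (v l)⌋₊ : ℕ))) := by
      intro v hv
      rw [mem_filter] at hv ⊢
      exact ⟨hv.1, fun h => hv.2 fun x hx hxN => equi_of (h x hx hxN)⟩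
    exact_mod_cast card_le_card hsub

end Pool.Agent.Results.MP_6dc561_nt.WeilRestrictions
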